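import Pool.Agent.Q293.FrogE

/-!
# A tree of positive speed on which the Poisson frog model has no transient regime
-/

set_option autoImplicit false

namespace Pool.Agent.Results.MP_32e6ae_pr.NeverTransient

open MeasureTheory ProbabilityTheory Filter FrogGW Q293.Frog
open scoped ENNReal NNReal Topology

/-- **MP_32e6ae_pr, Q1 (disproved).**  There is a rooted tree (given by the numbers of children
`Z v` of its vertices; vertices are words, the root is `[]`, the children of `v` are `i :: v` with
`i < Z v`), infinite and locally finite, such that simple random walk started at the root has
speed one, `|X n| / n → 1` almost surely, and such that for every density `lam > 0` the frog model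
with i.i.d. Poisson(`lam`) sleeping particles at the vertices other than the root is not
transient. -/
theorem result : ∃ Z : Env, {v | InTree Z v}.Infinite ∧
    (∀ᵐ u ∂(Measure.infinitePi fun _ : ℕ => unif),
      Tendsto (fun n : ℕ => ((walk Z [] u n).length : ℝ) / n) atTop (𝓝 1)) ∧
    ∀ lam : ℝ≥0, 0 < lam → ¬ Transient Z lam := by
  refine ⟨Zf MM, ?_, speed_one MM, not_transient⟩
  have h : ∀ k, InTree (Zf MM) (ray k) := by
    intro k
    induction k with
    | zero => exact trivial
    | succ k ih =>
      rw [ray_succ]
      refine ⟨ih, ?_⟩
      rw [Zf_ord MM (ray_ord k)]
      have : 0 < 2 ^ ((ray k).length + 3) := Nat.pos_of_ne_zero (by positivity)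
      exact Nat.lt_add_of_pos_left this
  have hinj : Function.Injective ray := by
    intro a b hab
    have := congrArg List.length hab
    rwa [ray_length, ray_length] at this
  exact Set.infinite_of_injective_forall_mem hinj h

end Pool.Agent.Results.MP_32e6ae_pr.NeverTransient
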